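import Mathlib
import Pool.Agent.V5helper55.TB.Multi2
import Pool.Agent.V5helper55.TB.Pred
import Pool.Agent.H340R2.LW

set_option autoImplicit false

/-!
# The digits of `π` and of its algebraic multiples

The digits of `π` and of `√2 π` (or of `π` and `π + √2`) in base ten, or in any two bases, cannot
both be simple in a long window, and the digits of `α₁ π, ..., α_k π` (`α i` algebraic, linearly
independent over `ℚ`) cannot all be simple in a window from `T` to `T ^ R`, `R > k / (k - 1)`.
The same for `e`.  A block of digits is simple if it can be cut into few pieces with a short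
linear recurrence each, for instance a short period.
-/

namespace Pool.Agent.Results.MP_7e9a3a_nt.AlgebraicImages

/-- the `n`-th digit after the point of `x` in base `b`, `n ≥ 1` -/
noncomputable def digit (b : ℕ) (x : ℝ) (n : ℕ) : ℤ := ⌊x * (b : ℝ) ^ n⌋ % (b : ℤ)

/-- The block `d (m + 1), ..., d M` can be cut into `K` pieces (some may be empty), each of which
satisfies a linear recurrence `∑ j ≤ h, a j * d (n + j) = 0` of some order `h ≤ p` with real
coefficients `a j`, not all zero; for each piece the recurrence and its order may be different.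
(A piece with a period `h ≤ p`, and a piece of length at most `p`, is of this kind.) -/
def Simple (d : ℕ → ℤ) (m M K : ℕ) (p : ℝ) : Prop :=
  ∃ c : ℕ → ℕ, Monotone c ∧ c 0 = m ∧ c K = M ∧ ∀ r < K, ∃ h : ℕ, (h : ℝ) ≤ p ∧
    ∃ a : ℕ → ℝ, (∃ j ≤ h, a j ≠ 0) ∧
      ∀ n, c r < n → n + h ≤ c (r + 1) → ∑ j ∈ Finset.range (h + 1), a j * (d (n + j) : ℝ) = 0

/-- For every `K` there is `ε > 0` such that for all large `T` it is impossible that for every `i`
the digits of `x i` in base `b i` with the indices `m i + 1, ..., M i`, where `(b i) ^ (m i) ≤ T` and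
`(b i) ^ (M i) ≥ T ^ R`, can be cut into `K` pieces with linear recurrences of orders at most
`ε log T`. -/
def Irregular {k : ℕ} (b : Fin k → ℕ) (x : Fin k → ℝ) (R : ℝ) : Prop :=
  ∀ K : ℕ, ∃ ε : ℝ, 0 < ε ∧ ∃ T0 : ℝ, ∀ T : ℝ, T0 ≤ T → ∀ m M : Fin k → ℕ,
    (∀ i, (b i : ℝ) ^ m i ≤ T ∧ T ^ R ≤ (b i : ℝ) ^ M i) →
    ¬ ∀ i, Simple (digit (b i) (x i)) (m i) (M i) K (ε * Real.log T)

/-- the number of digit changes among the first `n` digits of `x` in base `b` -/
noncomputable def changes (b : ℕ) (x : ℝ) (n : ℕ) : ℕ :=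
  ((Finset.Ico 1 n).filter fun j => digit b x (j + 1) ≠ digit b x j).card

/-- A predictor with `S` states. In the state `s` it announces the letter `out s`; then it reads
the true letter `d` and moves to the state `step s d`. -/
structure Predictor (S : ℕ) where
  /-- the announced letter -/
  out : Fin S → ℤ
  /-- the next state -/
  step : Fin S → ℤ → Fin S
  /-- the initial state -/
  start : Fin S

/-- the state after reading `d 1, ..., d n` -/
def Predictor.state {S : ℕ} (P : Predictor S) (d : ℕ → ℤ) : ℕ → Fin S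
  | 0 => P.start
  | n + 1 => P.step (P.state d n) (d (n + 1))

/-- the number of wrong predictions of the letters `d (m + 1), ..., d M` -/
def Predictor.errors {S : ℕ} (P : Predictor S) (d : ℕ → ℤ) (m M : ℕ) : ℕ :=
  ((Finset.Ico m M).filter fun n => P.out (P.state d n) ≠ d (n + 1)).card

lemma state_eq {S : ℕ} (P : Predictor S) (d : ℕ → ℤ) (n : ℕ) :
    P.state d n = Pool.Agent.V5helper55.TB.st P.step P.start d n := by
  induction n with
  | zero => rfl
  | succ n ih => rw [Predictor.state, Pool.Agent.V5helper55.TB.st, ih]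

lemma errors_eq {S : ℕ} (P : Predictor S) (d : ℕ → ℤ) (m M : ℕ) :
    P.errors d m M = Pool.Agent.V5helper55.TB.errs P.out P.step P.start d m M := by
  unfold Predictor.errors Pool.Agent.V5helper55.TB.errs
  simp only [state_eq]

/-- `e` and `π` are transcendental -/
lemma tr_of {z : ℝ} (hz : z = Real.exp 1 ∨ z = Real.pi) : Transcendental ℚ z := by
  rcases hz with rfl | rfl
  · exact Pool.Agent.H340R2.LW.transcendental_exp_one
  · exact Pool.Agent.H340R2.LW.transcendental_pi

/-- a transcendental number satisfies no linear equation over the algebraic numbers -/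
lemma lin_tr {z : ℝ} (hz : Transcendental ℚ z) {u v : ℝ} (hu : IsAlgebraic ℚ u)
    (hv : IsAlgebraic ℚ v) (h : u * z + v = 0) : u = 0 ∧ v = 0 := by
  have hu0 : u = 0 := by
    by_contra hne
    apply hz
    have h1 : z = -v / u := by
      rw [eq_div_iff hne]; linarith
    rw [h1, div_eq_mul_inv]
    exact hv.neg.mul hu.inv
  refine ⟨hu0, ?_⟩
  rw [hu0, zero_mul, zero_add] at h
  exact h

/-- **Result.**
(1) Let `x 1, ..., x (d + c)` be real numbers which are together with `1` linearly independent over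
`ℚ` (`c ≥ 1`), and let each of the last `c` of them be a linear combination of `1` and of the first
`d` of them with real algebraic coefficients. Then the digits of the numbers `x i` in any bases
`b i ≥ 2` are irregular for all `R > 1 + d / c`.
(2) Let `z` be `e` or `π`, and let `α s`, `β s` (`s = 1, ..., c`, `c ≥ 1`) be real algebraic numbers
such that `(1, 0)`, `(0, 1)`, `(α 1, β 1)`, ..., `(α c, β c)` are linearly independent over `ℚ` (for
`c = 1` this means that `α 1` or `β 1` is irrational). Then for all `R > 1 + 1 / c` and all bases the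
digits of `z, α 1 z + β 1, ..., α c z + β c` are irregular.
(3) If the digits of the numbers `x i` in the bases `b i` are irregular for some `R > 1`, then the
total number of digit changes among the first `n i` digits of `x i` in base `b i` is at least
`C log log T` as soon as all `(b i) ^ (n i) ≥ T ≥ T0 (C)`; and for every `K` there is `ε > 0` such
that predictors with at most `ε log T` states make together at least `K` wrong predictions in the
windows from `T` to `T ^ R`, `T` large. -/
theorem result :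
    (∀ (d c : ℕ), 1 ≤ c → ∀ (b : Fin (d + c) → ℕ) (x : Fin (d + c) → ℝ) (β : Fin c → Fin d → ℝ)
      (γ : Fin c → ℝ) (R : ℝ), (∀ i, 2 ≤ b i) →
      (∀ (q : Fin (d + c) → ℤ) (q0 : ℤ), ∑ i, (q i : ℝ) * x i + q0 = 0 →
        (∀ i, q i = 0) ∧ q0 = 0) →
      (∀ s i, IsAlgebraic ℚ (β s i)) → (∀ s, IsAlgebraic ℚ (γ s)) →
      (∀ s, x (Fin.natAdd d s) = ∑ i, β s i * x (Fin.castAdd c i) + γ s) →
      1 + (d : ℝ) / c < R → Irregular b x R) ∧
    (∀ (z : ℝ), z = Real.exp 1 ∨ z = Real.pi → ∀ (c : ℕ), 1 ≤ c → ∀ (b : Fin (1 + c) → ℕ)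
      (α β : Fin c → ℝ) (R : ℝ), (∀ i, 2 ≤ b i) → (∀ s, IsAlgebraic ℚ (α s)) →
      (∀ s, IsAlgebraic ℚ (β s)) →
      (∀ (q : Fin c → ℤ) (u v : ℤ), u + ∑ s, (q s : ℝ) * α s = 0 → v + ∑ s, (q s : ℝ) * β s = 0 →
        ∀ s, q s = 0) →
      1 + 1 / (c : ℝ) < R →
      Irregular b (Fin.append (fun _ : Fin 1 => z) fun s => α s * z + β s) R) ∧
    (∀ (k : ℕ) (b : Fin k → ℕ) (x : Fin k → ℝ) (R : ℝ), (∀ i, 2 ≤ b i) → 1 < R →
      Irregular b x R →
      (∀ C : ℝ, ∃ T0 : ℝ, ∀ T : ℝ, T0 ≤ T → ∀ n : Fin k → ℕ, (∀ i, T ≤ (b i : ℝ) ^ n i) →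
        C * Real.log (Real.log T) ≤ ((∑ i, changes (b i) (x i) (n i) : ℕ) : ℝ)) ∧
      (∀ K : ℕ, ∃ ε : ℝ, 0 < ε ∧ ∃ T0 : ℝ, ∀ T : ℝ, T0 ≤ T → ∀ m M : Fin k → ℕ,
        (∀ i, (b i : ℝ) ^ m i ≤ T ∧ T ^ R ≤ (b i : ℝ) ^ M i) →
        ∀ S : ℕ, (S : ℝ) ≤ ε * Real.log T → ∀ P : Fin k → Predictor S,
          K ≤ ∑ i, (P i).errors (digit (b i) (x i)) (m i) (M i))) := by
  have key : ∀ (d c : ℕ), 1 ≤ c → ∀ (b : Fin (d + c) → ℕ) (x : Fin (d + c) → ℝ)
      (β : Fin c → Fin d → ℝ)
      (γ : Fin c → ℝ) (R : ℝ), (∀ i, 2 ≤ b i) →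
      (∀ (q : Fin (d + c) → ℤ) (q0 : ℤ), ∑ i, (q i : ℝ) * x i + q0 = 0 →
        (∀ i, q i = 0) ∧ q0 = 0) →
      (∀ s i, IsAlgebraic ℚ (β s i)) → (∀ s, IsAlgebraic ℚ (γ s)) →
      (∀ s, x (Fin.natAdd d s) = ∑ i, β s i * x (Fin.castAdd c i) + γ s) →
      1 + (d : ℝ) / c < R → Irregular b x R := by
    intro d c hc b x β γ R hb hind hβ hγ hrel hR
    exact Pool.Agent.V5helper55.TB.scatteredL_multi hc b hb x hind β hβ γ hγ hrel hR
  refine ⟨key, ?_, ?_⟩
  · intro z hz c hc b α β R hb hα hβ hind hR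
    have htr := tr_of hz
    refine key 1 c hc b _ (fun s _ => α s) β R hb ?_ (fun s _ => hα s) hβ ?_ (by simpa using hR)
    · intro q q0 h
      rw [Fin.sum_univ_add, Fin.sum_univ_one] at h
      simp only [Fin.append_left, Fin.append_right] at h
      have h1 : (q (Fin.castAdd c 0) + ∑ s, (q (Fin.natAdd 1 s) : ℝ) * α s) * z +
          (q0 + ∑ s, (q (Fin.natAdd 1 s) : ℝ) * β s) = 0 := by
        rw [← h, add_mul, Finset.sum_mul]
        have h2 : ∑ s, (q (Fin.natAdd 1 s) : ℝ) * (α s * z + β s) =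
            ∑ s, (q (Fin.natAdd 1 s) : ℝ) * α s * z + ∑ s, (q (Fin.natAdd 1 s) : ℝ) * β s := by
          rw [← Finset.sum_add_distrib]
          exact Finset.sum_congr rfl fun s _ => by ring
        rw [h2]
        ring
      have halg : ∀ f : Fin c → ℝ, (∀ s, IsAlgebraic ℚ (f s)) → ∀ w : ℤ,
          IsAlgebraic ℚ ((w : ℝ) + ∑ s, (q (Fin.natAdd 1 s) : ℝ) * f s) := by
        intro f hf w
        refine (isAlgebraic_intCast w).add (Pool.Agent.V5helper55.TB.alg_sum _ fun s _ => ?_)
        exact (isAlgebraic_intCast _).mul (hf s)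
      obtain ⟨h3, h4⟩ := lin_tr htr (halg α hα _) (halg β hβ _) h1
      have h5 : ∀ s, q (Fin.natAdd 1 s) = 0 := hind (fun s => q (Fin.natAdd 1 s)) _ _ h3 h4
      have h6 : q0 = 0 := by
        simp only [h5] at h4
        simpa using h4
      have h7 : q (Fin.castAdd c 0) = 0 := by
        simp only [h5] at h3
        simpa using h3
      refine ⟨fun i => ?_, h6⟩
      induction i using Fin.addCases with
      | left i => rw [Subsingleton.elim i 0]; exact h7
      | right s => exact h5 s
    · intro s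
      rw [Fin.sum_univ_one]
      simp only [Fin.append_left, Fin.append_right]
  · intro k b x R hb hR h
    have h' : Pool.Agent.V5helper55.TB.Scattered b x R :=
      Pool.Agent.V5helper55.TB.ScatteredL.toScattered h
    refine ⟨fun C => Pool.Agent.V5helper55.TB.chg_total b x hb hR h' C, fun K => ?_⟩
    obtain ⟨ε, hε, T0, hT0⟩ := Pool.Agent.V5helper55.TB.pred_window b x hb hR h' K
    refine ⟨ε, hε, T0, fun T hT m M hmM S hS P => ?_⟩
    simp only [errors_eq]
    exact hT0 T hT m M hmM S hS (fun i => (P i).out) (fun i => (P i).step) (fun i => (P i).start)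

end Pool.Agent.Results.MP_7e9a3a_nt.AlgebraicImages
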