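import Pool.Agent.V5helper64.FP.Joint
import Pool.Agent.W47.LC.EBound

/-!
# Finite-state predictors of the digits of `e`, of `√2` and of several powers of `e` at the same time

By theorems of Agafonov, Schnorr and Stimm a real number is normal in base `b` if and only if no finite automaton which
reads its digits one after the other predicts them better than chance; several numbers are jointly normal if and only if
this holds for automata which read and predict the vectors of their digits. For `e` it is not even known that a finite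
automaton must fail with positive frequency. Here unconditional lower bounds for the number `E` of the failures among
the first `N` digits are proved, for all bases and all automata with `Q` states at the same time:

* `E ≥ log₂ (N / (Q + 3/2 log (1 + Q) + C)) - 2` for `e`, and `E ≥ log₂ (N / (Q + C)) - 2` for `√2` and all real
  quadratic irrationals;
* `E ≥ (n - ε) log (N / (Q + C)) - C'` for automata which read the digits of `n` powers `e^{κ_1}, …, e^{κ_n}` in parallel
  (`1 / log (1 + 1 / n) > n`).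

The automaton may use the digits which it has read, so that it may predict a different periodic continuation after every
failure. More generally the automaton may be replaced by any device whose predictions on every stretch without failures
satisfy a common linear recurrence over `ℚ` of order at most `m`, where the recurrence may be a different one on every
stretch.
-/

set_option autoImplicit false

open Finset

namespace Pool.Agent.Results.MP_7e9a3a_nt.FiniteStatePredictors

/-- the `i`-th digit of `x` after the point in base `b` -/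
noncomputable def digit (b : ℕ) (x : ℝ) (i : ℕ) : ℤ := ⌊x * (b : ℝ) ^ i⌋ % (b : ℤ)

/-- the state of the automaton with the transitions `δ` and the initial state `q₀` after it has read `d 1, …, d k` -/
def run {β : Type} {Q : ℕ} (δ : Fin Q → β → Fin Q) (q₀ : Fin Q) (d : ℕ → β) : ℕ → Fin Q
  | 0 => q₀
  | k + 1 => δ (run δ q₀ d k) (d (k + 1))

open scoped Classical in
/-- the number of failures of an automaton: the number of `k < N` such that the automaton, having read `d 1, …, d k`,
does not predict `d (k + 1)`; its prediction in the state `q` is `out q` -/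
noncomputable def errors {β : Type} {Q : ℕ} (δ : Fin Q → β → Fin Q) (q₀ : Fin Q) (out : Fin Q → β)
    (d : ℕ → β) (N : ℕ) : ℕ :=
  ((range N).filter fun k => out (run δ q₀ d k) ≠ d (k + 1)).card

/-- There is a constant `C` such that for all bases `b ≥ 2`, all `N` and all automata with `Q` states which read the
digits of `x_1, …, x_n` in base `b` in parallel the number `E` of failures of the automaton (at least one of the `n`
predicted digits is wrong) among the first `N` predictions satisfies
`N ≤ (μ + μ² + ⋯ + μ^(E+1)) (Q + A log (1 + Q) + C)`. -/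
def Predictors {n : ℕ} (x : Fin n → ℝ) (μ A : ℝ) : Prop :=
  ∃ C : ℝ, ∀ b : ℕ, 2 ≤ b → ∀ (Q : ℕ) (δ : Fin Q → (Fin n → ℤ) → Fin Q) (q₀ : Fin Q)
    (out : Fin Q → (Fin n → ℤ)) (N : ℕ),
    (N : ℝ) ≤ (∑ j ∈ Icc 1 (errors δ q₀ out (fun i j => digit b (x j) i) N + 1), μ ^ j) *
      (Q + A * Real.log (1 + Q) + C)

/-- There is a constant `C` such that for all bases `b ≥ 2`, all `N` and `m` and all sets `E` of places: if the digits
of `x_1, …, x_n` in base `b` from the place `u + 1` to the place `v` satisfy a common linear recurrence over `ℚ` of order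
`m`, which may depend on `u` and `v`, whenever `v ≤ N` and no `i ∈ E` has `u ≤ i < v`, then
`N ≤ (μ + μ² + ⋯ + μ^(|E|+1)) (m + C √((m + 1) log (m + 2)))`. -/
def Pieces {n : ℕ} (x : Fin n → ℝ) (μ : ℝ) : Prop :=
  ∃ C : ℝ, ∀ b : ℕ, 2 ≤ b → ∀ (N m : ℕ) (E : Finset ℕ),
    (∀ u v, u ≤ v → v ≤ N → (∀ i ∈ E, i < u ∨ v ≤ i) → ∃ c : ℕ → ℚ, ∀ j i, u ≤ i → i + m < v →
      (digit b (x j) (i + m + 1) : ℚ) = ∑ l ∈ range m, c l * (digit b (x j) (i + l + 1) : ℚ)) →
    (N : ℝ) ≤ (∑ j ∈ Icc 1 (E.card + 1), μ ^ j) * (m + C * Real.sqrt (((m : ℝ) + 1) * Real.log ((m : ℝ) + 2)))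

lemma sum_eq (μ : ℝ) (k : ℕ) : (∑ j ∈ Icc 1 (k + 1), μ ^ j) = ∑ i ∈ range (k + 1), μ ^ (i + 1) := by
  rw [Finset.range_eq_Ico, Finset.sum_Ico_add' (fun j => μ ^ j) 0 (k + 1) 1]
  rfl

lemma run_eq {β : Type} {Q : ℕ} (δ : Fin Q → β → Fin Q) (q₀ : Fin Q) (d : ℕ → β) (k : ℕ) :
    run δ q₀ d k = Pool.Agent.V5helper64.FP.run δ q₀ d k := by
  induction k with
  | zero => rfl
  | succ k ih => rw [run, Pool.Agent.V5helper64.FP.run, ih]

lemma errors_eq {β : Type} {Q : ℕ} (δ : Fin Q → β → Fin Q) (q₀ : Fin Q) (out : Fin Q → β)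
    (d : ℕ → β) (N : ℕ) : errors δ q₀ out d N = Pool.Agent.V5helper64.FP.errors δ q₀ out d N := by
  classical
  have e : run δ q₀ d = Pool.Agent.V5helper64.FP.run δ q₀ d := funext fun k => run_eq δ q₀ d k
  unfold errors Pool.Agent.V5helper64.FP.errors
  rw [e]

open Pool.Agent.W47.JL in
/-- from the measure to the two bounds -/
theorem main {n : ℕ} (x : Fin n → ℝ) (μ c A : ℝ) (hμ : 1 < μ) (hc : 0 < c) (hA : 0 ≤ A)
    (h : Meas n x μ c A) : Predictors x μ ((3 / 2 * A) / (μ - 1)) ∧ Pieces x μ := by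
  constructor
  · obtain ⟨C, hC0, hC⟩ := Pool.Agent.V5helper64.FP.predictors x μ c A hμ hc hA h
    refine ⟨C, fun b hb Q δ q₀ out N => ?_⟩
    rw [sum_eq, errors_eq]
    exact hC b hb (Fin n → ℤ) id (fun i j => digit b (x j) i) (fun i j => rfl) Q δ q₀ out N
  · obtain ⟨C, hC0, hC⟩ := Pool.Agent.R473.FP.pieces n x μ c A hμ hc hA h
    refine ⟨C, fun b hb N m E hrec => ?_⟩
    rw [sum_eq]
    exact hC b hb N m E.card E le_rfl hrec

open Pool.Agent.W47.JL in
/-- one number -/
theorem main1 (x c A : ℝ) (hc : 0 < c) (hA : 0 ≤ A)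
    (hx : ∀ q : ℕ, 1 ≤ q → ∀ p : ℤ, c ≤ (q : ℝ) * (1 + Real.log q) ^ A * |q * x - p|) :
    Predictors (fun _ : Fin 1 => x) 2 (3 / 2 * A) ∧ Pieces (fun _ : Fin 1 => x) 2 := by
  have h := main (fun _ : Fin 1 => x) 2 c A (by norm_num) hc hA (fun q hq p => ⟨0, by
    have e1 : (q : ℝ) ^ ((2 : ℝ) - 1) = q := by norm_num
    rw [e1]
    exact hx q hq (p 0)⟩)
  have e : (3 / 2 * A) / ((2 : ℝ) - 1) = 3 / 2 * A := by norm_num
  rw [e] at h
  exact h

open Polynomial in
/-- Liouville's inequality for quadratic irrationals -/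
theorem liouville (x : ℝ) (hx : Irrational x) (u v w : ℤ) (hu : u ≠ 0)
    (h : (u : ℝ) * x ^ 2 + v * x + w = 0) :
    ∃ c : ℝ, 0 < c ∧ ∀ q : ℕ, 1 ≤ q → ∀ p : ℤ, c ≤ (q : ℝ) * |q * x - p| := by
  obtain ⟨f, hf⟩ : ∃ f : ℤ[X], f = C u * X ^ 2 + C v * X + C w := ⟨_, rfl⟩
  have hd : f.natDegree = 2 := by rw [hf]; exact natDegree_quadratic hu
  have f0 : f ≠ 0 := by
    intro h0
    rw [h0, natDegree_zero] at hd
    omega
  obtain ⟨a, ha, hL⟩ := Liouville.exists_pos_real_of_irrational_root hx f0 (by
    rw [hf]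
    simp only [Polynomial.map_add, Polynomial.map_mul, Polynomial.map_pow, Polynomial.map_C,
      Polynomial.map_X, eval_add, eval_mul, eval_pow, eval_C, eval_X]
    simpa using h)
  refine ⟨1 / a, by positivity, fun q hq p => ?_⟩
  have h1 := hL p (q - 1)
  have hqR : (0 : ℝ) < q := by exact_mod_cast hq
  have e1 : (((q - 1 : ℕ) : ℝ) + 1) = q := by
    rw [Nat.cast_sub hq]
    push_cast
    ring
  rw [e1, hd] at h1
  have e2 : |x - p / q| = |q * x - p| / q := by
    rw [← abs_of_pos hqR, ← abs_div, abs_of_pos hqR]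
    congr 1
    field_simp
  rw [e2] at h1
  rw [div_le_iff₀ ha]
  calc (1 : ℝ) ≤ (q : ℝ) ^ 2 * (|q * x - p| / q * a) := h1
    _ = (q : ℝ) * |q * x - p| * a := by field_simp

/-- **Predicting the digits of `e`, of quadratic irrationals and of powers of `e`.** (1) Let `κ_1, …, κ_n` be distinct
nonzero integers, `n ≥ 1`, and `μ > 1 + 1 / n`. For automata which read the digits of `e^{κ_1}, …, e^{κ_n}` in parallel
one has `N ≤ (μ + ⋯ + μ^(E+1)) (Q + C)`, and the bound of `Pieces` holds with `μ`. (2) For `e` itself both bounds hold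
with `μ = 2`, where `Q + C` has to be replaced by `Q + 3/2 log (1 + Q) + C`. (3) For every real quadratic irrational, for
instance `√2`, both bounds hold with `μ = 2`. (4) For every real number `x` such that for some `A ≥ 0` and some `c > 0`
one has `|q x - p| ≥ c / (q (1 + log q)^A)` for all integers `p` and `q ≥ 1`, both bounds hold with `μ = 2` and
`Q + 3/2 A log (1 + Q) + C` instead of `Q + C`. -/
theorem result :
    (∀ (n : ℕ), 1 ≤ n → ∀ κ : Fin n → ℤ, Function.Injective κ → (∀ j, κ j ≠ 0) → ∀ μ : ℝ,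
      1 + 1 / (n : ℝ) < μ → Predictors (fun j => Real.exp (κ j)) μ 0 ∧ Pieces (fun j => Real.exp (κ j)) μ) ∧
    (Predictors (fun _ : Fin 1 => Real.exp 1) 2 (3 / 2) ∧ Pieces (fun _ : Fin 1 => Real.exp 1) 2) ∧
    (∀ x : ℝ, Irrational x → (∃ u v w : ℤ, u ≠ 0 ∧ (u : ℝ) * x ^ 2 + v * x + w = 0) →
      Predictors (fun _ : Fin 1 => x) 2 0 ∧ Pieces (fun _ : Fin 1 => x) 2) ∧
    (∀ x A c : ℝ, 0 ≤ A → 0 < c →
      (∀ q : ℕ, 1 ≤ q → ∀ p : ℤ, c ≤ (q : ℝ) * (1 + Real.log q) ^ A * |q * x - p|) →
      Predictors (fun _ : Fin 1 => x) 2 (3 / 2 * A) ∧ Pieces (fun _ : Fin 1 => x) 2) := by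
  refine ⟨fun n hn κ hκ h0 μ hμ => ?_, ?_, fun x hx ⟨u, v, w, hu, h⟩ => ?_,
    fun x A c hA hc hx => main1 x c A hc hA hx⟩
  · obtain ⟨c, hc, h⟩ := Pool.Agent.V5helper64.FP.meas_e hn κ hκ h0 μ hμ
    have hn0 : (0 : ℝ) < n := by exact_mod_cast hn
    have h1 : 0 < 1 / (n : ℝ) := by positivity
    have h2 := main (fun j => Real.exp (κ j)) μ c 0 (by linarith) hc le_rfl h
    rw [mul_zero, zero_div] at h2
    exact h2
  · have h := main1 (Real.exp 1) (1 / 1000) 1 (by norm_num) (by norm_num) (fun q hq1 p => by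
      rw [Real.rpow_one]
      have := Pool.Agent.W47.LC.eBound q hq1 p
      rw [pow_one] at this
      exact this)
    rw [mul_one] at h
    exact h
  · obtain ⟨c, hc, hq⟩ := liouville x hx u v w hu h
    have h := main1 x c 0 hc le_rfl (fun q hq1 p => by
      rw [Real.rpow_zero, mul_one]
      exact hq q hq1 p)
    rw [mul_zero] at h
    exact h

end Pool.Agent.Results.MP_7e9a3a_nt.FiniteStatePredictors
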