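import Pool.Agent.V5helper55.CR.Pred
import Pool.Agent.V5helper55.CR.Two

/-!
# The digits of `√2` are nearly periodic only in runs of zeros or of the digit `b - 1`

Let `x` be an irrational real algebraic integer (for instance `√2`) and `b ≥ 2` any base. For the
number of digit changes of `x` up to `N` only powers of `log N` are known as lower bounds if no prime
number `p` which does not divide `b` ramifies in `ℚ(x)` in all places above `p`; for `√2` these are the
even bases. We show that long runs of zeros and of the digit `b - 1` are the only obstacle.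

* Each linear relation `q_0 a_k + … + q_m a_(k+m) = e` between consecutive digits which is not
  satisfied by both of the constant sequences `0, 0, …` and `b - 1, b - 1, …`, i.e. with `e ≠ 0` or
  `q_0 + … + q_m ≠ 0`, fails at least `c N ^ δ` times up to `N`. Finite automata which predict the
  digits and which cannot predict both of the constant sequences are wrong at least `c N ^ δ` times.
  Among the first `N` binary digits of `√2` at least `c N ^ (1/3)` are equal to the next digit.
* All other relations, all pushdown predictors and all lossless finite-state compressors are not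
  essentially better than the relation `a_(k+1) = a_k`, the predictor `the next digit is the last one`
  or the counting of run lengths: the number of the failures (wrong guesses, steps in which something
  is written) is at least a power of the number of digit changes, and also at least a power of the
  number of the digits which are not `0` or `b - 1`. In particular there are `c N ^ δ` digit changes
  if some digit different from `0` and `b - 1` occurs at least `N ^ ε` times.

Proof. If `a_(k+P) = a_k` fails rarely, then the integers `⌊b^(K+P) x⌋ - ⌊b^K x⌋` are approximations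
of `b^K (b^P - 1) x` with few places where `U (K+1) ≠ b U K`. For a prime `p` which divides
`b^P - 1` the number `t = (b^P - 1) x` satisfies an equation `F(t) = 0` with `F ≡ T^(p^j)` modulo `p`.
By the Frobenius argument of the starting file `H323R2` nearly all `U K` are divisible by `p`, so
`U K / p` are again approximations, of `b^K t / p`, with few changes. After division by all the
prime factors of `b^P - 1` we get approximations of `b^K x` with few changes, which means that the
digits of `x` nearly always are in long runs of zeros or of the digit `b - 1`. The number of places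
in the runs of each kind is at least a power of `N` by the theorem of Bailey, Borwein, Crandall and
Pomerance (starting file `R474.AG`). The analysis of the pushdown automata and of the compressors is
the one of the starting files `R473.PP`.
-/

set_option autoImplicit false

namespace Pool.Agent.Results.MP_7e9a3a_nt.NearlyPeriodicDigits

open Finset Filter Pool.Agent.W979.HS Pool.Agent.R473.PP Pool.Agent.V5helper55.CR

/-- the `k`-th digit of `x` after the point in base `b` -/
noncomputable def digit (b : ℕ) (x : ℝ) (k : ℕ) : ℤ := ⌊x * (b : ℝ) ^ k⌋ % (b : ℤ)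

/-- the number of digit changes: the number of the `k` in `[1, N]` such that the digits `k` and
`k + 1` are different -/
noncomputable def changes (b : ℕ) (x : ℝ) (N : ℕ) : ℕ :=
  ((Icc 1 N).filter fun k => digit b x k ≠ digit b x (k + 1)).card

/-- the number of the `k` in `[1, N]` such that the digit `k` is neither `0` nor `b - 1` -/
noncomputable def inner (b : ℕ) (x : ℝ) (N : ℕ) : ℕ :=
  ((Icc 1 N).filter fun k => digit b x k ≠ 0 ∧ digit b x k ≠ (b : ℤ) - 1).card

/-- the number of the `k` in `[1, N]` for which the relation `q_0 a_k + … + q_m a_(k+m) = e` fails,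
where `a_k` is the `k`-th digit -/
noncomputable def failures (b : ℕ) (x : ℝ) (m : ℕ) (q : ℕ → ℤ) (e : ℤ) (N : ℕ) : ℕ :=
  ((Icc 1 N).filter fun k => ∑ j ∈ range (m + 1), q j * digit b x (k + j) ≠ e).card

/-- `a 0, a 1, …` are the digits of `x` after the point in base `b` -/
def IsDigits (b : ℕ) (x : ℝ) (a : ℕ → Fin b) : Prop :=
  ∀ i, ((a i : ℕ) : ℤ) = digit b x (i + 1)

/-- the state of a finite automaton with the transition function `step` which starts in the state
`q₀`, after it has read `n` terms of the sequence `a` -/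
def state {Q : Type} {b : ℕ} (step : Q → Fin b → Q) (q₀ : Q) (a : ℕ → Fin b) : ℕ → Q
  | 0 => q₀
  | n + 1 => step (state step q₀ a n) (a n)

open Classical in
/-- the number of the wrong guesses among the first `N`: before the automaton reads the term `a k` in
the state `s` it guesses `guess s` -/
noncomputable def errors {Q : Type} {b : ℕ} (step : Q → Fin b → Q) (guess : Q → Fin b) (q₀ : Q)
    (a : ℕ → Fin b) (N : ℕ) : ℕ :=
  ((range N).filter fun k => guess (state step q₀ a k) ≠ a k).card

lemma state_eq {Q : Type} {b : ℕ} (step : Q → Fin b → Q) (q₀ : Q) (a : ℕ → Fin b) (n : ℕ) :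
    state step q₀ a n = fst' step q₀ a n := by
  induction n with
  | zero => rfl
  | succ n ih => simp only [state, fst', ih]

lemma errors_eq {Q : Type} {b : ℕ} (step : Q → Fin b → Q) (guess : Q → Fin b) (q₀ : Q)
    (a : ℕ → Fin b) (N : ℕ) : errors step guess q₀ a N = errs step guess q₀ a N := by
  classical
  unfold errors errs
  apply congrArg
  apply Finset.filter_congr
  intro k _
  rw [state_eq]

/-- shifting the range of the index -/
lemma card_shift (p : ℕ → Prop) [DecidablePred p] (N : ℕ) :
    ((Icc 1 N).filter p).card = ((range N).filter fun k => p (k + 1)).card := by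
  have h : (Icc 1 N).filter p = ((range N).filter fun k => p (k + 1)).map (addRightEmbedding 1) := by
    ext k
    rw [Finset.mem_filter, Finset.mem_Icc, Finset.mem_map]
    constructor
    · rintro ⟨⟨h1, h2⟩, h3⟩
      refine ⟨k - 1, ?_, by show k - 1 + 1 = k; omega⟩
      rw [Finset.mem_filter, Finset.mem_range]
      exact ⟨by omega, by rw [Nat.sub_add_cancel h1]; exact h3⟩
    · rintro ⟨i, hi, rfl⟩
      rw [Finset.mem_filter, Finset.mem_range] at hi
      exact ⟨⟨by show 1 ≤ i + 1; omega, by show i + 1 ≤ N; omega⟩, hi.2⟩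
  rw [h, Finset.card_map]

lemma failures_eq (b : ℕ) (x : ℝ) (m : ℕ) (q : ℕ → ℤ) (e : ℤ) (N : ℕ) :
    failures b x m q e N = Pool.Agent.H323R2.cnt b x m q e N := by
  unfold failures
  rw [card_shift]
  rfl

lemma sum_le (b : ℕ) (x : ℝ) (N : ℕ) :
    ((changes b x N : ℝ) + inner b x N) ≤ 2 * (ncst b x 2 N : ℝ) := by
  classical
  have h1 : changes b x N ≤ ncst b x 2 N := by
    unfold changes ncst
    rw [card_shift]
    apply Finset.card_le_card
    intro K hK
    rw [Finset.mem_filter] at hK ⊢
    refine ⟨hK.1, fun hc => hK.2 ?_⟩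
    rcases hc with h | h
    · have h0 := h 0 (by norm_num)
      have h1 := h 1 (by norm_num)
      exact h0.trans h1.symm
    · have h0 := h 0 (by norm_num)
      have h1 := h 1 (by norm_num)
      exact h0.trans h1.symm
  have h2 : inner b x N ≤ ncst b x 2 N := by
    unfold inner ncst
    rw [card_shift]
    apply Finset.card_le_card
    intro K hK
    rw [Finset.mem_filter] at hK ⊢
    refine ⟨hK.1, fun hc => ?_⟩
    rcases hc with h | h
    · exact hK.2.1 (h 0 (by norm_num))
    · exact hK.2.2 (h 0 (by norm_num))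
  have h3 : (changes b x N : ℝ) ≤ ncst b x 2 N := by exact_mod_cast h1
  have h4 : (inner b x N : ℝ) ≤ ncst b x 2 N := by exact_mod_cast h2
  linarith

/-- a uniform lower bound from polynomial inequalities -/
lemma power_uniform (C : ℝ) (hC : 0 < C) (M κ : ℕ) (hM : 1 ≤ M) (hκ : 1 ≤ κ) :
    ∃ c : ℝ, 0 < c ∧ ∃ N0 : ℕ, ∀ E : ℕ → ℕ, Monotone E →
      (∀ n : ℕ, (n : ℝ) ≤ C * (1 + (E (M * n) : ℝ)) ^ κ) →
      ∀ N : ℕ, N0 ≤ N → c * (N : ℝ) ^ ((1 : ℝ) / (κ : ℝ)) ≤ (E N : ℝ) := by
  have hκ' : (0 : ℝ) < κ := by exact_mod_cast hκ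
  have hM' : (1 : ℝ) ≤ M := by exact_mod_cast hM
  obtain ⟨D, hD⟩ : ∃ D : ℝ, D = (M * (C + 1)) ^ ((1 : ℝ) / (κ : ℝ)) := ⟨_, rfl⟩
  have hMC : 0 < (M : ℝ) * (C + 1) := by positivity
  have hD0 : 0 < D := by rw [hD]; exact Real.rpow_pos_of_pos hMC _
  have hlim : Tendsto (fun N : ℕ => (N : ℝ) ^ ((1 : ℝ) / (κ : ℝ))) atTop atTop :=
    (tendsto_rpow_atTop (by positivity)).comp tendsto_natCast_atTop_atTop
  obtain ⟨N0, hN0⟩ := Filter.eventually_atTop.1 (hlim.eventually_ge_atTop (2 * D))
  refine ⟨1 / (2 * D), by positivity, N0, fun E hE h N hN => ?_⟩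
  have hE0 : (0 : ℝ) ≤ (E N : ℝ) := Nat.cast_nonneg _
  have h1 : (N : ℝ) ≤ M * (C + 1) * (1 + (E N : ℝ)) ^ κ := by
    have h2 := h (N / M)
    have h3 : E (M * (N / M)) ≤ E N := hE (Nat.mul_div_le N M)
    have h4 : (E (M * (N / M)) : ℝ) ≤ (E N : ℝ) := by exact_mod_cast h3
    have h5 : (N : ℝ) ≤ M * (((N / M : ℕ) : ℝ) + 1) := by
      have : N < M * (N / M + 1) := Nat.lt_mul_div_succ N (by omega)
      exact_mod_cast this.le
    have h6 : (1 + (E (M * (N / M)) : ℝ)) ^ κ ≤ (1 + (E N : ℝ)) ^ κ :=
      pow_le_pow_left₀ (by positivity) (by linarith) _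
    have h7 : (1 : ℝ) ≤ (1 + (E N : ℝ)) ^ κ := one_le_pow₀ (by linarith)
    calc (N : ℝ) ≤ M * (((N / M : ℕ) : ℝ) + 1) := h5
      _ ≤ M * ((C + 1) * (1 + (E N : ℝ)) ^ κ) := by
          apply mul_le_mul_of_nonneg_left _ (by positivity)
          have := mul_le_mul_of_nonneg_left h6 hC.le
          linarith
      _ = _ := by ring
  have h2 : (N : ℝ) ^ ((1 : ℝ) / (κ : ℝ)) ≤ D * (1 + (E N : ℝ)) := by
    have h3 := Real.rpow_le_rpow (by positivity) h1 (show (0 : ℝ) ≤ 1 / (κ : ℝ) by positivity)
    rw [Real.mul_rpow hMC.le (by positivity), ← hD, ← Real.rpow_natCast,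
      ← Real.rpow_mul (by positivity), mul_one_div_cancel hκ'.ne', Real.rpow_one] at h3
    exact h3
  have h3 := hN0 N hN
  rw [div_mul_eq_mul_div, one_mul, div_le_iff₀ (by positivity)]
  nlinarith

/-- **Theorem.** (1) Let `b ≥ 2`, let `x` be a real number and `d` a natural number such that `d x` is
an algebraic integer. The number of digit changes of `d x` up to `N` plus the number of its digits up
to `N` which are not `0` or `b - 1` is at most `C (1 + E) ^ κ`, where `E` is
(a) the number of failures up to `M N` of a relation `q_0 a_k + … + q_m a_(k+m) = e` between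
consecutive digits of `x`, with `q_0 + q_1 b + … + q_m b ^ m ≠ 0`,
(b) the number of wrong guesses of a pushdown predictor which has read `M N` digits of `x`,
(c) the number of the steps in which a lossless compressor with a given number of states, which reads
the digits of `x`, writes something, among the first `M N` steps.
Here `C`, `κ`, `M` depend on `b`, `x`, `d` and the relation, the predictor or the number of states.

(2) Let `b ≥ 2` and let `x` be an irrational real algebraic integer.
(a) If moreover `(e, q_0 + … + q_m) ≠ (0, 0)`, then the relation fails at least `c N ^ δ` times up to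
`N`, for some `c, δ > 0` and all large `N`.
(b) A finite automaton which predicts the digits of `x` and which cannot predict the constant sequence
`s, s, …`, in whatever state it starts, where `s` is one of the digits `0` and `b - 1`, is wrong at
least `c N ^ δ` times up to the `N`-th digit.

(3) The number `√2` is an irrational algebraic integer, and at least `c N ^ (1/3)` of its first `N`
binary digits are equal to the next digit. -/
theorem result :
    (∀ b : ℕ, 2 ≤ b →
      (∀ (x : ℝ) (d : ℕ), IsIntegral ℤ ((d : ℝ) * x) →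
        (∀ (m : ℕ) (q : ℕ → ℤ) (e : ℤ), ∑ j ∈ range (m + 1), q j * (b : ℤ) ^ j ≠ 0 →
          ∃ C : ℝ, 0 < C ∧ ∃ M κ : ℕ, ∀ N : ℕ,
            (changes b (d * x) N : ℝ) + inner b (d * x) N ≤
              C * (1 + (failures b x m q e (M * N) : ℝ)) ^ κ) ∧
        (∀ (Q Γ : Type) [Fintype Q] [Fintype Γ] (A : Predictor b Q Γ),
          ∃ C : ℝ, 0 < C ∧ ∃ M κ : ℕ, ∀ a : ℕ → Fin b, IsDigits b x a →
            ∀ (q₀ : Q) (N T : ℕ), M * N ≤ (A.conf q₀ a T).1 →
              (changes b (d * x) N : ℝ) + inner b (d * x) N ≤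
                C * (1 + (A.wrong q₀ a T : ℝ)) ^ κ) ∧
        (∀ Q : ℕ, ∃ C : ℝ, 0 < C ∧ ∃ M κ : ℕ, ∀ a : ℕ → Fin b, IsDigits b x a →
          ∀ (β : Type) [DecidableEq β] (δ : Fin Q → Fin b → Fin Q) (o : Fin Q → Fin b → List β)
            (q₀ : Fin Q), Lossless δ o q₀ → ∀ N : ℕ,
              (changes b (d * x) N : ℝ) + inner b (d * x) N ≤
                C * (1 + (writes δ o q₀ a (M * N) : ℝ)) ^ κ)) ∧
      (∀ x : ℝ, IsIntegral ℤ x → Irrational x →
        (∀ (m : ℕ) (q : ℕ → ℤ) (e : ℤ), ∑ j ∈ range (m + 1), q j * (b : ℤ) ^ j ≠ 0 →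
          ¬ (e = 0 ∧ ∑ j ∈ range (m + 1), q j = 0) →
          ∃ c δ : ℝ, 0 < c ∧ 0 < δ ∧ ∃ N0 : ℕ, ∀ N : ℕ, N0 ≤ N →
            c * (N : ℝ) ^ δ ≤ failures b x m q e N) ∧
        (∀ (Q : Type) [Finite Q] (step : Q → Fin b → Q) (guess : Q → Fin b) (s : Fin b),
          ((s : ℕ) = 0 ∨ (s : ℕ) = b - 1) →
          (∀ q, ∃ i, guess ((fun y => step y s)^[i] q) ≠ s) →
          ∃ c δ : ℝ, 0 < c ∧ 0 < δ ∧ ∃ N0 : ℕ, ∀ a : ℕ → Fin b, IsDigits b x a →
            ∀ (q₀ : Q) (N : ℕ), N0 ≤ N → c * (N : ℝ) ^ δ ≤ errors step guess q₀ a N))) ∧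
    (IsIntegral ℤ (√2 : ℝ) ∧ Irrational (√2 : ℝ) ∧
      ∃ c : ℝ, 0 < c ∧ ∃ N0 : ℕ, ∀ N : ℕ, N0 ≤ N → c * (N : ℝ) ^ ((1 : ℝ) / 3) ≤
        (((Icc 1 N).filter fun k => digit 2 (√2) k = digit 2 (√2) (k + 1)).card : ℝ)) := by
  classical
  refine ⟨fun b hb => ⟨fun x d hx => ⟨?_, ?_, ?_⟩, fun x hx hirr => ⟨?_, ?_⟩⟩, ?_, irrational_sqrt_two, ?_⟩
  · intro m q e hq
    obtain ⟨C, hC, M, κ, hM, hκ, h⟩ := ncst_rel' b hb x d hx 2 m q e hq
    refine ⟨2 * C, by positivity, M, κ, fun N => ?_⟩
    have h1 := sum_le b (d * x) N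
    have h2 := h N
    rw [failures_eq]
    linarith
  · intro Q Γ _ _ A
    obtain ⟨C, hC, M, κ, hM, hκ, h⟩ := ncst_predictor b hb x d hx 2 A
    refine ⟨2 * C, by positivity, M, κ, fun a ha q₀ N T hT => ?_⟩
    have h1 := sum_le b (d * x) N
    have h2 := h a ha q₀ N T hT
    linarith
  · intro Q
    obtain ⟨C, hC, M, κ, hM, hκ, h⟩ := ncst_compressor b hb x d hx 2 Q
    refine ⟨2 * C, by positivity, M, κ, fun a ha β _ δ o q₀ hl N => ?_⟩
    have h1 := sum_le b (d * x) N
    have h2 := h a ha β δ o q₀ hl N
    linarith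
  · intro m q e hq hne
    obtain ⟨C, hC, M, κ, hM, hκ, h⟩ := rel_pow b hb x hx hirr m q e hq hne
    obtain ⟨c, hc, N0, h'⟩ := power_uniform C hC M κ hM hκ
    have hκ' : (0 : ℝ) < κ := by exact_mod_cast hκ
    refine ⟨c, 1 / κ, hc, by positivity, N0, fun N hN => ?_⟩
    rw [failures_eq]
    exact h' _ (fun i j hij => Pool.Agent.H323R2.cnt_mono b x m q e hij) h N hN
  · intro Q _ step guess s hs hne
    have : Fintype Q := Fintype.ofFinite Q
    obtain ⟨C, hC, M, κ, hM, hκ, h⟩ := finite_pow hb x hx hirr step guess s hs hne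
    obtain ⟨c, hc, N0, h'⟩ := power_uniform C hC M κ hM hκ
    have hκ' : (0 : ℝ) < κ := by exact_mod_cast hκ
    refine ⟨c, 1 / κ, hc, by positivity, N0, fun a ha q₀ N hN => ?_⟩
    rw [errors_eq]
    exact h' _ (fun i j hij => errs_mono step guess q₀ a hij) (h a ha q₀) N hN
  · refine ⟨Polynomial.X ^ 2 - Polynomial.C 2, Polynomial.monic_X_pow_sub_C _ two_ne_zero, ?_⟩
    simp
  · obtain ⟨c, hc, h⟩ := same_pow
    obtain ⟨N0, h0⟩ := Filter.eventually_atTop.1 h
    refine ⟨c, hc, N0, fun N hN => (h0 N hN).trans (le_of_eq ?_)⟩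
    rw [card_shift]
    rfl

end Pool.Agent.Results.MP_7e9a3a_nt.NearlyPeriodicDigits
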