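import Mathlib
import Pool.Agent.V5helper55.TB.Const
import Pool.Agent.V5helper55.TB.Pred

set_option autoImplicit false

/-!
# The digits of `e` and `π` in two multiplicatively independent bases

The digits of `e` (or `π`) in two multiplicatively independent bases, for instance `2` and `10`,
cannot both be simple in a long window.  A block of digits is simple if it can be cut into
few pieces with a short linear recurrence each, for instance a short period.
-/

namespace Pool.Agent.Results.MP_7e9a3a_nt.TwoIndependentBases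

/-- the `n`-th digit after the point of `x` in base `b`, `n ≥ 1` -/
noncomputable def digit (b : ℕ) (x : ℝ) (n : ℕ) : ℤ := ⌊x * (b : ℝ) ^ n⌋ % (b : ℤ)

/-- The block `d (m + 1), ..., d M` can be cut into `K` pieces (some may be empty), each of which
satisfies a linear recurrence `∑ j ≤ h, a j * d (n + j) = 0` of some order `h ≤ p` with real
coefficients `a j`, not all zero; for each piece the recurrence and its order may be different.
(A piece with a period `h ≤ p`, and a piece of length at most `p`, is of this kind.) -/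
def Simple (d : ℕ → ℤ) (m M K : ℕ) (p : ℝ) : Prop :=
  ∃ c : ℕ → ℕ, Monotone c ∧ c 0 = m ∧ c K = M ∧ ∀ r < K, ∃ h : ℕ, (h : ℝ) ≤ p ∧
    ∃ a : ℕ → ℝ, (∃ j ≤ h, a j ≠ 0) ∧
      ∀ n, c r < n → n + h ≤ c (r + 1) → ∑ j ∈ Finset.range (h + 1), a j * (d (n + j) : ℝ) = 0

/-- For every `K` there is `ε > 0` such that for all large `T` the following is impossible: the
digits of `x` in base `a` with the indices `m + 1, ..., M`, and the digits of `y` in base `b` with the
indices `m' + 1, ..., M'`, where `a ^ m, b ^ m' ≤ T` and `a ^ M, b ^ M' ≥ T ^ R`, can both be cut into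
`K` pieces with linear recurrences of orders at most `ε log T`. -/
def Irregular (a b : ℕ) (x y R : ℝ) : Prop :=
  ∀ K : ℕ, ∃ ε : ℝ, 0 < ε ∧ ∃ T0 : ℝ, ∀ T : ℝ, T0 ≤ T → ∀ m M m' M' : ℕ,
    (a : ℝ) ^ m ≤ T → T ^ R ≤ (a : ℝ) ^ M → (b : ℝ) ^ m' ≤ T → T ^ R ≤ (b : ℝ) ^ M' →
    ¬ (Simple (digit a x) m M K (ε * Real.log T) ∧ Simple (digit b y) m' M' K (ε * Real.log T))

/-- `a` and `b` are multiplicatively independent -/
def Independent (a b : ℕ) : Prop := ∀ k l : ℕ, a ^ k = b ^ l → k = 0 ∧ l = 0

/-- the number of digit changes among the first `n` digits of `x` in base `b` -/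
noncomputable def changes (b : ℕ) (x : ℝ) (n : ℕ) : ℕ :=
  ((Finset.Ico 1 n).filter fun j => digit b x (j + 1) ≠ digit b x j).card

/-- A predictor with `S` states. In the state `s` it announces the letter `out s`; then it reads
the true letter `d` and moves to the state `step s d`. -/
structure Predictor (S : ℕ) where
  /-- the announced letter -/
  out : Fin S → ℤ
  /-- the next state -/
  step : Fin S → ℤ → Fin S
  /-- the initial state -/
  start : Fin S

/-- the state after reading `d 1, ..., d n` -/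
def Predictor.state {S : ℕ} (P : Predictor S) (d : ℕ → ℤ) : ℕ → Fin S
  | 0 => P.start
  | n + 1 => P.step (P.state d n) (d (n + 1))

/-- the number of wrong predictions of the letters `d (m + 1), ..., d M` -/
def Predictor.errors {S : ℕ} (P : Predictor S) (d : ℕ → ℤ) (m M : ℕ) : ℕ :=
  ((Finset.Ico m M).filter fun n => P.out (P.state d n) ≠ d (n + 1)).card

lemma irr_of {a b : ℕ} {x y R : ℝ}
    (h : Pool.Agent.V5helper55.TB.ScatteredL ![a, b] ![x, y] R) : Irregular a b x y R := by
  intro K
  obtain ⟨ε, hε, T0, h1⟩ := h K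
  refine ⟨ε, hε, T0, fun T hT m M m' M' h2 h3 h4 h5 h6 => ?_⟩
  refine h1 T hT ![m, m'] ![M, M'] ?_ ?_
  · intro i
    fin_cases i
    · exact ⟨h2, h3⟩
    · exact ⟨h4, h5⟩
  · intro i
    fin_cases i
    · exact h6.1
    · exact h6.2

lemma state_eq {S : ℕ} (P : Predictor S) (d : ℕ → ℤ) (n : ℕ) :
    P.state d n = Pool.Agent.V5helper55.TB.st P.step P.start d n := by
  induction n with
  | zero => rfl
  | succ n ih => rw [Predictor.state, Pool.Agent.V5helper55.TB.st, ih]

lemma errors_eq {S : ℕ} (P : Predictor S) (d : ℕ → ℤ) (m M : ℕ) :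
    P.errors d m M = Pool.Agent.V5helper55.TB.errs P.out P.step P.start d m M := by
  unfold Predictor.errors Pool.Agent.V5helper55.TB.errs
  simp only [state_eq]

/-- **Result.** Let `a` and `b` be multiplicatively independent and `α ≠ 0`, `β` rational.
(1) Let `z` be a real number with `|z - r / q| ≥ c q ^ (-μ)` and `R > max (2, μ)`. Then the digits of
`z` in base `a` and of `α z + β` in base `b` are irregular: for every `K` there is `ε > 0` such that
they cannot both be cut, from the place `T` to the place `T ^ R`, `T` large, into `K` pieces with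
linear recurrences of order at most `ε log T`.
(2) In particular this holds for `z = e`, `R > 2`, and for `z = π`, `R > 6.05`.
(3) Let `z` be `e` or `π`. For every `C` the digit changes of `z` in base `a` and of `α z + β` in
base `b` up to the place `T` are together at least `C log log T`, if `T ≥ T0 (C)`.
(4) For every `K` there is `ε > 0` such that a predictor of the digits of `z` in base `a` and a
predictor of the digits of `α z + β` in base `b` with at most `ε log T` states make together at
least `K` wrong predictions from the place `T` to the place `T ^ 7`, `T` large.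
(5) There is `c ≥ 2` such that for every base `b` multiplicatively independent of `c` the number of
digit changes among the first `n` digits of `z` in base `b`, divided by `log n`, is unbounded. -/
theorem result :
    (∀ (a b : ℕ) (α β : ℚ), 2 ≤ a → 2 ≤ b → Independent a b → α ≠ 0 →
      (∀ z μ c R : ℝ, 0 < c →
        (∀ q : ℕ, 1 ≤ q → ∀ r : ℤ, c ≤ |z - r / q| * (q : ℝ) ^ μ) → μ < R → 2 < R →
        Irregular a b z (α * z + β) R) ∧
      (∀ R : ℝ, 2 < R → Irregular a b (Real.exp 1) (α * Real.exp 1 + β) R) ∧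
      (∀ R : ℝ, 6.05 < R → Irregular a b Real.pi (α * Real.pi + β) R) ∧
      (∀ z : ℝ, z = Real.exp 1 ∨ z = Real.pi →
        (∀ C : ℝ, ∃ T0 : ℝ, ∀ T : ℝ, T0 ≤ T → ∀ m n : ℕ, T ≤ (a : ℝ) ^ m → T ≤ (b : ℝ) ^ n →
          C * Real.log (Real.log T) ≤ ((changes a z m + changes b (α * z + β) n : ℕ) : ℝ)) ∧
        (∀ K : ℕ, ∃ ε : ℝ, 0 < ε ∧ ∃ T0 : ℝ, ∀ T : ℝ, T0 ≤ T → ∀ m M m' M' : ℕ,
          (a : ℝ) ^ m ≤ T → T ^ (7 : ℝ) ≤ (a : ℝ) ^ M → (b : ℝ) ^ m' ≤ T →
          T ^ (7 : ℝ) ≤ (b : ℝ) ^ M' → ∀ S : ℕ, (S : ℝ) ≤ ε * Real.log T →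
          ∀ P P' : Predictor S,
            K ≤ P.errors (digit a z) m M + P'.errors (digit b (α * z + β)) m' M'))) ∧
    (∀ z : ℝ, z = Real.exp 1 ∨ z = Real.pi → ∃ c : ℕ, 2 ≤ c ∧ ∀ b : ℕ, 2 ≤ b →
      Independent b c → ∀ C : ℝ, ∀ n0 : ℕ, ∃ n : ℕ, n0 ≤ n ∧
        C * Real.log n < changes b z n) := by
  have key : ∀ (a b : ℕ) (α β : ℚ), 2 ≤ a → 2 ≤ b → Independent a b → α ≠ 0 →
      (∀ R : ℝ, 2 < R → Pool.Agent.V5helper55.TB.ScatteredL ![a, b]
        ![Real.exp 1, α * Real.exp 1 + β] R) ∧
      (∀ R : ℝ, 6.05 < R → Pool.Agent.V5helper55.TB.ScatteredL ![a, b]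
        ![Real.pi, α * Real.pi + β] R) := by
    intro a b α β ha hb hab hα
    constructor
    · intro R hR
      obtain ⟨c, hc, hm⟩ := Pool.Agent.V5helper55.TB.meas_e (μ := (2 + R) / 2) (by linarith)
      exact Pool.Agent.V5helper55.TB.scattered_rat ha hb hab hα hc hm (by linarith) hR
    · intro R hR
      obtain ⟨c, hc, hm⟩ := Pool.Agent.V5helper55.TB.meas_pi
      exact Pool.Agent.V5helper55.TB.scattered_rat ha hb hab hα hc hm hR (by linarith)
  have key7 : ∀ (a b : ℕ) (α β : ℚ), 2 ≤ a → 2 ≤ b → Independent a b → α ≠ 0 →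
      ∀ z : ℝ, z = Real.exp 1 ∨ z = Real.pi →
      Pool.Agent.V5helper55.TB.Scattered ![a, b] ![z, α * z + β] 7 := by
    intro a b α β ha hb hab hα z hz
    have h1 := key a b α β ha hb hab hα
    rcases hz with rfl | rfl
    · exact Pool.Agent.V5helper55.TB.ScatteredL.toScattered (h1.1 7 (by norm_num))
    · exact Pool.Agent.V5helper55.TB.ScatteredL.toScattered (h1.2 7 (by norm_num))
  refine ⟨fun a b α β ha hb hab hα => ⟨?_, ?_, ?_, ?_⟩, ?_⟩
  · intro z μ c R hc hm hμ hR
    exact irr_of (Pool.Agent.V5helper55.TB.scattered_rat ha hb hab hα hc hm hμ hR)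
  · intro R hR
    exact irr_of ((key a b α β ha hb hab hα).1 R hR)
  · intro R hR
    exact irr_of ((key a b α β ha hb hab hα).2 R hR)
  · intro z hz
    have hS := key7 a b α β ha hb hab hα z hz
    have hb2 : ∀ i, 2 ≤ (![a, b] : Fin 2 → ℕ) i := by
      intro i; fin_cases i; exacts [ha, hb]
    constructor
    · intro C
      obtain ⟨T0, hT0⟩ := Pool.Agent.V5helper55.TB.chg_total ![a, b] ![z, α * z + β] hb2
        (by norm_num) hS C
      refine ⟨T0, fun T hT m n hm hn => ?_⟩
      have h1 := hT0 T hT ![m, n] (by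
        intro i
        fin_cases i
        · exact hm
        · exact hn)
      rw [Fin.sum_univ_two] at h1
      exact h1
    · intro K
      obtain ⟨ε, hε, T0, hT0⟩ := Pool.Agent.V5helper55.TB.pred_window ![a, b] ![z, α * z + β] hb2
        (by norm_num) hS K
      refine ⟨ε, hε, T0, fun T hT m M m' M' h1 h2 h3 h4 S hSS P P' => ?_⟩
      have h5 := hT0 T hT ![m, m'] ![M, M'] (by
        intro i
        fin_cases i
        · exact ⟨h1, h2⟩
        · exact ⟨h3, h4⟩) S hSS ![P.out, P'.out] ![P.step, P'.step] ![P.start, P'.start]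
      rw [Fin.sum_univ_two] at h5
      rw [errors_eq, errors_eq]
      exact h5
  · intro z hz
    refine Pool.Agent.V5helper55.TB.one_class z fun a b ha hb hab => ⟨7, by norm_num, ?_⟩
    have h1 := key7 a b 1 0 ha hb hab one_ne_zero z hz
    simpa using h1

end Pool.Agent.Results.MP_7e9a3a_nt.TwoIndependentBases
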